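import Pool.Agent.W2helper35.PP.Jump
import Pool.Agent.Y72.Log.Coc

/-!
# Additive functions on centralisers in groups of piecewise projective homeomorphisms
-/

set_option autoImplicit false
set_option linter.unusedSectionVars false

namespace Pool.Agent.W2helper35.PP

open Filter Topology Set
open Pool.Agent.Y72.Pl (Hm mul_ap one_ap inv_ap ap_inv tr tl)
open Pool.Agent.Y72.Log (AddOn)

variable {G : Type*} [Group G]

/-- from real to integral functions -/
lemma to_int {c : G} {f : G → ℝ} (hf : AddOn c f) (hfc : f c ≠ 0) (T : Finset ℝ)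
    (hT : ∀ x, x * c = c * x → f x ∈ AddSubgroup.closure (T : Set ℝ)) :
    ∃ f' : G → ℤ, AddOn c f' ∧ f' c ≠ 0 := by
  classical
  set M := AddSubgroup.closure (T : Set ℝ) with hM
  have hfg : AddGroup.FG M := (AddGroup.fg_iff_addSubgroup_fg M).2 ⟨T, rfl⟩
  haveI : Module.Finite ℤ M := Module.Finite.iff_addGroup_fg.2 hfg
  let b := Module.Free.chooseBasis ℤ M
  let t : M := ⟨f c, hT c rfl⟩
  have ht : t ≠ 0 := fun h => hfc (congrArg Subtype.val h)
  have h1 : ∃ i, b.repr t i ≠ 0 := by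
    by_contra hcon
    push Not at hcon
    apply ht
    apply b.repr.injective
    ext i
    rw [hcon i, map_zero]
    rfl
  obtain ⟨i, hi⟩ := h1
  refine ⟨fun x => if h : x * c = c * x then b.repr ⟨f x, hT x h⟩ i else 0, ?_, ?_⟩
  · intro x y hx hy
    have hxy : (x * y) * c = c * (x * y) := by
      rw [mul_assoc, hy, ← mul_assoc, hx, mul_assoc]
    simp only [dif_pos hx, dif_pos hy, dif_pos hxy]
    have h2 : (⟨f (x * y), hT _ hxy⟩ : M) = ⟨f x, hT x hx⟩ + ⟨f y, hT y hy⟩ :=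
      Subtype.ext (hf x y hx hy)
    rw [h2, map_add]
    rfl
  · simp only [dif_pos trivial]
    exact hi

section rep

variable (ρ : G →* Hm) (hρ : ∀ x, IsPP univ (ρ x))

include hρ

/-- the jumps lie in a finitely generated group -/
lemma jp_fg [Group.FG G] : ∃ T : Finset ℝ, ∀ x z, jp (ρ x) z ∈ AddSubgroup.closure (T : Set ℝ) := by
  classical
  obtain ⟨S, hS⟩ := Group.fg_def.1 (inferInstance : Group.FG G)
  choose s hs using fun x => jp_zero (hρ x)
  refine ⟨S.biUnion fun g => (s g).image (jp (ρ g)), ?_⟩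
  set M := AddSubgroup.closure ((S.biUnion fun g => (s g).image (jp (ρ g)) : Finset ℝ) : Set ℝ)
    with hM
  intro x
  have hx : x ∈ Subgroup.closure (S : Set G) := by rw [hS]; trivial
  induction hx using Subgroup.closure_induction with
  | mem g hg =>
    intro z
    by_cases hz : z ∈ s g
    · apply AddSubgroup.subset_closure
      rw [Finset.mem_coe, Finset.mem_biUnion]
      exact ⟨g, hg, Finset.mem_image_of_mem _ hz⟩
    · rw [hs g z hz]
      exact M.zero_mem
  | one =>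
    intro z
    rw [map_one, jp_one]
    exact M.zero_mem
  | mul x y _ _ hx hy =>
    intro z
    rw [map_mul, jp_mul (hρ y) (hρ x)]
    exact M.add_mem (hx _) (hy _)
  | inv x _ hx =>
    intro z
    rw [map_inv, jp_inv (hρ x)]
    exact M.neg_mem (hx _)

/-- the germs at `-∞` -/
lemma bot_germ : ∃ l : G → ℝ, ∃ b : G → ℝ, (∀ x, 0 < l x) ∧
    (∀ x, Ger atBot id (ρ x) (l x) (b x)) ∧ ∀ x y, l (x * y) = l x * l y := by
  have hU : ∀ x ∈ (univ : Set ℝ), -x ∈ (univ : Set ℝ) := fun _ _ => mem_univ _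
  choose l b h using fun x => (hρ x).ger_bot hU
  refine ⟨l, b, fun x => (h x).1.pos isEnd_bot (tend_bot _), fun x => (h x).1, ?_⟩
  intro x y
  have h1 := (h x).1.mul (h y).1 (tend_bot _)
  rw [← map_mul] at h1
  exact ((h (x * y)).1.unique isEnd_bot h1).1

lemma bot_fg [Group.FG G] {l : G → ℝ} (hl : ∀ x, 0 < l x) (hm : ∀ x y, l (x * y) = l x * l y) :
    ∃ T : Finset ℝ, ∀ x, Real.log (l x) ∈ AddSubgroup.closure (T : Set ℝ) := by
  classical
  obtain ⟨S, hS⟩ := Group.fg_def.1 (inferInstance : Group.FG G)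
  refine ⟨S.image fun g => Real.log (l g), ?_⟩
  set M := AddSubgroup.closure ((S.image fun g => Real.log (l g) : Finset ℝ) : Set ℝ) with hM
  have hL : ∀ x y, Real.log (l (x * y)) = Real.log (l x) + Real.log (l y) := by
    intro x y
    rw [hm, Real.log_mul (hl x).ne' (hl y).ne']
  have hL1 : Real.log (l 1) = 0 := by
    have := hL 1 1
    rw [mul_one] at this
    linarith
  intro x
  have hx : x ∈ Subgroup.closure (S : Set G) := by rw [hS]; trivial
  induction hx using Subgroup.closure_induction with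
  | mem g hg =>
    apply AddSubgroup.subset_closure
    rw [Finset.mem_coe]
    exact Finset.mem_image_of_mem _ hg
  | one =>
    rw [hL1]
    exact M.zero_mem
  | mul x y _ _ hx hy =>
    rw [hL]
    exact M.add_mem hx hy
  | inv x _ hx =>
    have h1 : Real.log (l x⁻¹) = - Real.log (l x) := by
      have := hL x⁻¹ x
      rw [inv_mul_cancel, hL1] at this
      linarith
    rw [h1]
    exact M.neg_mem hx

end rep

/-- `κ` is the parameter of a parabolic germ of `f`: near `-∞` the map is the translation by `κ`,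
or to the right of a fixed point `a` it is the translation by `κ` in the coordinate
`-1 / (z - a)` -/
def IsPar (f : ℝ → ℝ) (κ : ℝ) : Prop :=
  (∀ᶠ z in atBot, f z = z + κ) ∨
    ∃ a : ℝ, f a = a ∧ ∀ᶠ z in 𝓝[>] a, -(f z - a)⁻¹ = -(z - a)⁻¹ + κ

lemma isPar_bot {f : ℝ → ℝ} {κ : ℝ} : (∀ᶠ z in atBot, f z = z + κ) ↔ Ger atBot id f 1 κ := by
  unfold Ger
  simp only [id, one_mul]

lemma isPar_right {f : ℝ → ℝ} {κ a : ℝ} :
    (∀ᶠ z in 𝓝[>] a, -(f z - a)⁻¹ = -(z - a)⁻¹ + κ) ↔ Ger (𝓝[>] a) (wa a) f 1 κ := by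
  unfold Ger wa
  simp only [one_mul]

/-- the parameters of parabolic germs of a piecewise projective homeomorphism -/
lemma IsPP.par_mem {A : Set ℝ} (hA : ∀ x ∈ A, -x ∈ A) {f : Hm} (h : IsPP A f) {κ : ℝ}
    (hκ : IsPar f κ) : κ ∈ A := by
  rcases hκ with h1 | ⟨a, h1, h2⟩
  · obtain ⟨l, b, h3, h4⟩ := h.ger_bot hA
    obtain ⟨h5, h6⟩ := h3.unique isEnd_bot (isPar_bot.1 h1)
    rw [← h6]
    exact h4 h5
  · obtain ⟨l, b, h3, h4⟩ := h.ger_right hA h1
    obtain ⟨h5, h6⟩ := h3.unique (isEnd_right a) (isPar_right.1 h2)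
    rw [← h6]
    exact h4 h5

/-- parabolic germs of the centraliser at an end -/
lemma par_end {F : Filter ℝ} {w : ℝ → ℝ} (E : IsEnd F w) (ρ : G →* Hm) {c : G}
    (ht : ∀ x, x * c = c * x → Tendsto (ρ x) F F)
    (hg : ∀ x, x * c = c * x → ∃ l b, Ger F w (ρ x) l b) {b : ℝ} (hb : b ≠ 0)
    (hc : Ger F w (ρ c) 1 b) : ∃ κ : G → ℝ, AddOn c κ ∧ κ c ≠ 0 ∧
      ∀ x, x * c = c * x → Ger F w (ρ x) 1 (κ x) := by
  classical
  have h1 : ∀ x, x * c = c * x → ∃ b, Ger F w (ρ x) 1 b := by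
    intro x hx
    obtain ⟨l, b', h2⟩ := hg x hx
    have h3 := hc.comm E h2 (ht c rfl) (ht x hx) hb (by rw [← map_mul, hx, map_mul])
    rw [h3] at h2
    exact ⟨b', h2⟩
  let κ : G → ℝ := fun x => if h : x * c = c * x then (h1 x h).choose else 0
  have hκ : ∀ x, x * c = c * x → Ger F w (ρ x) 1 (κ x) := by
    intro x hx
    show Ger F w (ρ x) 1 (if h : x * c = c * x then (h1 x h).choose else 0)
    rw [dif_pos hx]
    exact (h1 x hx).choose_spec
  refine ⟨κ, ?_, ?_, hκ⟩
  · intro x y hx hy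
    have hxy : (x * y) * c = c * (x * y) := by
      rw [mul_assoc, hy, ← mul_assoc, hx, mul_assoc]
    have h2 := (hκ x hx).mul (hκ y hy) (ht y hy)
    rw [← map_mul] at h2
    have h3 := ((hκ _ hxy).unique E h2).2
    rw [h3]
    ring
  · rw [((hκ c rfl).unique E hc).2]
    exact hb

/-- **the additive functions on centralisers** -/
theorem key [Group.FG G] (ρ : G →* Hm) (hρ : ∀ x, IsPP univ (ρ x)) {c : G} (hc : ρ c ≠ 1) :
    (∃ f : G → ℤ, AddOn c f ∧ f c ≠ 0) ∨
    ∃ κ : G → ℝ, AddOn c κ ∧ κ c ≠ 0 ∧ ∀ x, x * c = c * x → IsPar (ρ x) (κ x) := by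
  have hU : ∀ x ∈ (univ : Set ℝ), -x ∈ (univ : Set ℝ) := fun _ _ => mem_univ _
  rcases exists_end hU (hρ c) hc with ⟨l, b, h1, _, h2⟩ | ⟨a, ha, hfix, l, b, h1, _, h2⟩
  · by_cases hl : l = 1
    · right
      rw [hl] at h1
      obtain ⟨κ, h3, h4, h5⟩ := par_end isEnd_bot ρ (c := c) (fun x _ => tend_bot _)
        (fun x _ => by
          obtain ⟨l, b, h, _⟩ := (hρ x).ger_bot hU
          exact ⟨l, b, h⟩) (h2 hl) h1
      exact ⟨κ, h3, h4, fun x hx => Or.inl (isPar_bot.2 (h5 x hx))⟩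
    · left
      obtain ⟨L, B, hL0, hL1, hL2⟩ := bot_germ ρ hρ
      obtain ⟨T, hT⟩ := bot_fg ρ hρ hL0 hL2
      refine to_int (f := fun x => Real.log (L x)) ?_ ?_ T (fun x _ => hT x)
      · intro x y _ _
        show Real.log (L (x * y)) = Real.log (L x) + Real.log (L y)
        rw [hL2, Real.log_mul (hL0 x).ne' (hL0 y).ne']
      · have h3 : L c = l := ((hL1 c).unique isEnd_bot h1).1
        show Real.log (L c) ≠ 0
        rw [h3]
        exact Real.log_ne_zero_of_pos_of_ne_one (by rw [← h3]; exact hL0 c) hl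
  · have hfx : ∀ x, x * c = c * x → ρ x a = a := by
      intro x hx
      apply hfix
      rw [← map_mul, hx, map_mul]
    by_cases hl : l = 1
    · right
      rw [hl] at h1
      obtain ⟨κ, h3, h4, h5⟩ := par_end (isEnd_right a) ρ (c := c)
        (fun x hx => tr_fix (hfx x hx))
        (fun x hx => by
          obtain ⟨l, b, h, _⟩ := (hρ x).ger_right hU (hfx x hx)
          exact ⟨l, b, h⟩) (h2 hl) h1
      exact ⟨κ, h3, h4, fun x hx => Or.inr ⟨a, hfx x hx, isPar_right.2 (h5 x hx)⟩⟩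
    · left
      obtain ⟨T, hT⟩ := jp_fg ρ hρ
      refine to_int (f := fun x => jp (ρ x) a) ?_ (jp_ne ha h1 hl) T (fun x _ => hT x a)
      intro x y _ hy
      show jp (ρ (x * y)) a = jp (ρ x) a + jp (ρ y) a
      rw [map_mul, jp_mul (hρ y) (hρ x), hfx y hy]

end Pool.Agent.W2helper35.PP
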