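import Pool.Agent.Y72.Pl.Root

/-!
# Germs of homeomorphisms of the line at an end which are affine in a suitable coordinate
-/

set_option autoImplicit false
set_option linter.unusedSectionVars false

namespace Pool.Agent.W2helper35.PP

open Filter Topology Set
open Pool.Agent.Y72.Pl (Hm mul_ap one_ap inv_ap ap_inv)

/-- an end of the line with a coordinate which tends to `-∞` -/
structure IsEnd (F : Filter ℝ) (w : ℝ → ℝ) : Prop where
  ne : F.NeBot
  tw : Tendsto w F atBot
  inj : Function.Injective w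

/-- `f` is affine in the coordinate `w` near the end `F` -/
def Ger (F : Filter ℝ) (w : ℝ → ℝ) (f : ℝ → ℝ) (l b : ℝ) : Prop :=
  ∀ᶠ z in F, w (f z) = l * w z + b

variable {F : Filter ℝ} {w : ℝ → ℝ}

lemma Ger.unique (E : IsEnd F w) {f : ℝ → ℝ} {l b l' b' : ℝ} (h : Ger F w f l b)
    (h' : Ger F w f l' b') : l = l' ∧ b = b' := by
  haveI := E.ne
  have h1 : ∀ᶠ z in F, (l - l') * w z = b' - b := by
    filter_upwards [h, h'] with z h1 h2
    rw [h1] at h2
    linarith
  have h2 : l = l' := by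
    by_contra hne
    have h3 : l - l' ≠ 0 := sub_ne_zero.2 hne
    have h4 : ∀ᶠ z in F, w z < (b' - b) / (l - l') := E.tw.eventually (eventually_lt_atBot _)
    obtain ⟨z, h5, h6⟩ := (h1.and h4).exists
    have h7 : w z = (b' - b) / (l - l') := by
      rw [eq_div_iff h3, mul_comm]
      exact h5
    rw [h7] at h6
    exact lt_irrefl _ h6
  refine ⟨h2, ?_⟩
  obtain ⟨z, h5⟩ := h1.exists
  rw [h2, sub_self, zero_mul] at h5
  linarith

lemma Ger.comp {f g : ℝ → ℝ} {l b l' b' : ℝ} (hf : Ger F w f l b) (hg : Ger F w g l' b')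
    (ht : Tendsto g F F) : Ger F w (fun z => f (g z)) (l * l') (l * b' + b) := by
  filter_upwards [ht.eventually hf, hg] with z h1 h2
  rw [h1, h2]
  ring

lemma Ger.mul {f g : Hm} {l b l' b' : ℝ} (hf : Ger F w f l b) (hg : Ger F w g l' b')
    (ht : Tendsto g F F) : Ger F w (f * g : Hm) (l * l') (l * b' + b) := hf.comp hg ht

lemma Ger.one : Ger F w (1 : Hm) 1 0 := by
  apply Eventually.of_forall
  intro z
  rw [one_ap]
  ring

lemma Ger.pos (E : IsEnd F w) {f : ℝ → ℝ} {l b : ℝ} (h : Ger F w f l b) (ht : Tendsto f F F) :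
    0 < l := by
  haveI := E.ne
  by_contra hc
  push Not at hc
  have h1 : ∀ᶠ z in F, w (f z) < b := (E.tw.comp ht).eventually (eventually_lt_atBot _)
  have h2 : ∀ᶠ z in F, w z < 0 := E.tw.eventually (eventually_lt_atBot _)
  obtain ⟨z, h3, h4, h5⟩ := (h.and (h1.and h2)).exists
  rw [h3] at h4
  have h6 : 0 ≤ l * w z := mul_nonneg_of_nonpos_of_nonpos hc h5.le
  linarith

lemma Ger.ev_eq (E : IsEnd F w) {f g : ℝ → ℝ} {l b : ℝ} (hf : Ger F w f l b)
    (hg : Ger F w g l b) : ∀ᶠ z in F, f z = g z := by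
  filter_upwards [hf, hg] with z h1 h2
  exact E.inj (h1.trans h2.symm)

lemma tends_pow {f : Hm} (ht : Tendsto f F F) (n : ℕ) : Tendsto (f ^ n : Hm) F F := by
  induction n with
  | zero => exact tendsto_id
  | succ n ih =>
    rw [pow_succ]
    exact ih.comp ht

lemma Ger.pow {f : Hm} {l b : ℝ} (h : Ger F w f l b) (ht : Tendsto f F F) (n : ℕ) :
    Ger F w (f ^ n : Hm) (l ^ n) (b * ∑ i ∈ Finset.range n, l ^ i) := by
  induction n with
  | zero =>
    rw [pow_zero, pow_zero, Finset.sum_range_zero, mul_zero]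
    exact Ger.one
  | succ n ih =>
    rw [pow_succ]
    have h1 := ih.mul h ht
    rw [← pow_succ] at h1
    rw [Finset.sum_range_succ]
    have h2 : l ^ n * b + b * ∑ i ∈ Finset.range n, l ^ i =
        b * (∑ i ∈ Finset.range n, l ^ i + l ^ n) := by ring
    rw [h2] at h1
    rw [← pow_succ]
    rw [← pow_succ] at h1
    exact h1

lemma Ger.root (E : IsEnd F w) {f g : Hm} {l b l' b' : ℝ} (hf : Ger F w f l b)
    (hg : Ger F w g l' b') (tf : Tendsto f F F) (tg : Tendsto g F F) {n : ℕ} (hn : 0 < n)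
    (hfg : f ^ n = g ^ n) : l = l' ∧ b = b' := by
  have h1 := hf.pow tf n
  have h2 := hg.pow tg n
  rw [hfg] at h1
  obtain ⟨h3, h4⟩ := h1.unique E h2
  have hl := hf.pos E tf
  have hl' := hg.pos E tg
  have h5 : l = l' := (pow_left_inj₀ hl.le hl'.le hn.ne').1 h3
  refine ⟨h5, ?_⟩
  rw [← h5] at h4
  have h6 : 0 < ∑ i ∈ Finset.range n, l ^ i :=
    Finset.sum_pos (fun i _ => pow_pos hl i) ⟨0, Finset.mem_range.2 hn⟩
  exact mul_right_cancel₀ h6.ne' h4

/-- an element commuting with a parabolic germ is parabolic -/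
lemma Ger.comm (E : IsEnd F w) {c x : Hm} {b l b' : ℝ} (hc : Ger F w c 1 b)
    (hx : Ger F w x l b') (tc : Tendsto c F F) (tx : Tendsto x F F) (hb : b ≠ 0)
    (hxc : x * c = c * x) : l = 1 := by
  have h1 := hx.mul hc tc
  have h2 := hc.mul hx tx
  rw [hxc] at h1
  obtain ⟨_, h3⟩ := h1.unique E h2
  have h4 : (l - 1) * b = 0 := by linarith
  rcases mul_eq_zero.1 h4 with h5 | h5
  · linarith
  · exact absurd h5 hb

/-- the end `-∞` -/
lemma isEnd_bot : IsEnd atBot id := ⟨inferInstance, tendsto_id, Function.injective_id⟩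

/-- the coordinate at the point `a` -/
noncomputable def wa (a z : ℝ) : ℝ := -(z - a)⁻¹

/-- the end to the right of `a` -/
lemma isEnd_right (a : ℝ) : IsEnd (𝓝[>] a) (wa a) := by
  refine ⟨inferInstance, ?_, ?_⟩
  · have h1 : Tendsto (fun z : ℝ => z - a) (𝓝[>] a) (𝓝[>] 0) := by
      apply tendsto_nhdsWithin_iff.2
      constructor
      · have h2 : Tendsto (fun z : ℝ => z - a) (𝓝 a) (𝓝 (a - a)) :=
          (continuous_id.sub continuous_const).tendsto a
        rw [sub_self] at h2
        exact h2.mono_left nhdsWithin_le_nhds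
      · filter_upwards [self_mem_nhdsWithin] with z hz
        have hz' : a < z := hz
        exact sub_pos.2 hz'
    exact tendsto_neg_atTop_atBot.comp (tendsto_inv_nhdsGT_zero.comp h1)
  · intro x y hxy
    unfold wa at hxy
    have h1 := inv_injective (neg_injective hxy)
    linarith

lemma tend_bot (f : Hm) : Tendsto f atBot atBot := f.tendsto_atBot

end Pool.Agent.W2helper35.PP
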