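import Pool.Agent.W2helper35.PP.Cen
import Pool.Agent.H23R2.Fin
import Pool.Agent.H23R2.Root

/-!
# Finitely generated groups of piecewise projective homeomorphisms have few bad primes
-/

set_option autoImplicit false
set_option linter.unusedSectionVars false

namespace Pool.Agent.W2helper35.PP

open Filter Topology Set
open Pool.Agent.Y72.Pl (Hm)
open Pool.Agent.Y72.Log (AddOn)
open Pool.Agent.H23R2 (GoodPrime finite_inv_primes)

variable {G : Type*} [Group G]

/-- the coefficients of a finitely generated group lie in a finitely generated ring -/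
lemma exists_ring [Group.FG G] (ρ : G →* Hm) (hρ : ∀ x, IsPP univ (ρ x)) :
    ∃ T : Finset ℝ, ∀ x, IsPP (Algebra.adjoin ℤ (T : Set ℝ) : Set ℝ) (ρ x) := by
  classical
  obtain ⟨S, hS⟩ := Group.fg_def.1 (inferInstance : Group.FG G)
  choose U hU using fun x => (hρ x).fin
  refine ⟨S.biUnion U, ?_⟩
  set A : Subring ℝ := (Algebra.adjoin ℤ ((S.biUnion U : Finset ℝ) : Set ℝ)).toSubring with hA
  have hAset : ((Algebra.adjoin ℤ ((S.biUnion U : Finset ℝ) : Set ℝ) : Subalgebra ℤ ℝ) : Set ℝ) =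
      (A : Set ℝ) := rfl
  rw [hAset]
  intro x
  have hx : x ∈ Subgroup.closure (S : Set G) := by rw [hS]; trivial
  induction hx using Subgroup.closure_induction with
  | mem g hg =>
    apply hU g
    intro t ht
    show t ∈ Algebra.adjoin ℤ ((S.biUnion U : Finset ℝ) : Set ℝ)
    apply Algebra.subset_adjoin
    rw [Finset.mem_coe, Finset.mem_biUnion]
    exact ⟨g, hg, ht⟩
  | one =>
    rw [map_one]
    exact isPP_one A
  | mul x y _ _ hx hy =>
    rw [map_mul]
    exact hx.mul hy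
  | inv x _ hx =>
    rw [map_inv]
    exact hx.inv

/-- a nonzero element of a finitely generated ring is not divisible by all powers of a prime which
is not invertible -/
lemma krull (T : Finset ℝ) {p : ℕ} (hp : p.Prime)
    (hpT : ((p : ℝ)⁻¹) ∉ Algebra.adjoin ℤ (T : Set ℝ)) {κ : ℝ}
    (hκ : κ ≠ 0) : ∃ k : ℕ, ∀ y ∈ Algebra.adjoin ℤ (T : Set ℝ), κ ≠ (p : ℝ) ^ k * y := by
  set R : Subalgebra ℤ ℝ := Algebra.adjoin ℤ (T : Set ℝ) with hR
  have hft : Algebra.FiniteType ℤ R := by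
    rw [← Subalgebra.fg_iff_finiteType]
    exact ⟨T, rfl⟩
  haveI : IsNoetherianRing R := Algebra.FiniteType.isNoetherianRing ℤ R
  have hne : Ideal.span {(p : R)} ≠ ⊤ := by
    intro h
    rw [Ideal.span_singleton_eq_top] at h
    obtain ⟨u, hu⟩ := h
    apply hpT
    have h1 : (p : R) * (u⁻¹ : Rˣ).val = 1 := by rw [← hu, Units.mul_inv]
    have h2 : (p : ℝ) * ((u⁻¹ : Rˣ).val : ℝ) = 1 := by
      have := congrArg Subtype.val h1
      simpa using this
    rw [inv_eq_of_mul_eq_one_right h2]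
    exact ((u⁻¹ : Rˣ).val).2
  by_contra hcon
  push Not at hcon
  apply hκ
  obtain ⟨y0, hy0, h0⟩ := hcon 0
  have hκR : κ ∈ R := by
    rw [h0, pow_zero, one_mul]
    exact hy0
  have hmem : (⟨κ, hκR⟩ : R) ∈ ⨅ i, Ideal.span {(p : R)} ^ i := by
    rw [Ideal.mem_iInf]
    intro i
    obtain ⟨y, hy, h1⟩ := hcon i
    rw [Ideal.span_singleton_pow, Ideal.mem_span_singleton]
    refine ⟨⟨y, hy⟩, ?_⟩
    apply Subtype.ext
    have h2 : (((p : R) ^ i * ⟨y, hy⟩ : R) : ℝ) = (p : ℝ) ^ i * y := by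
      push_cast
      rfl
    exact h1.trans h2.symm
  have h3 := Ideal.iInf_pow_eq_bot_of_isDomain (I := Ideal.span {(p : R)}) hne
  rw [h3, Ideal.mem_bot] at hmem
  exact congrArg Subtype.val hmem

lemma not_dvd_pow {z : ℤ} (hz : z ≠ 0) {p : ℕ} (hp : p.Prime) : ¬ ((p ^ z.natAbs : ℕ) : ℤ) ∣ z := by
  intro h
  have h1 : p ^ z.natAbs ∣ z.natAbs := by rwa [← Int.natCast_dvd]
  have h2 := Nat.le_of_dvd (Int.natAbs_pos.2 hz) h1
  have h3 : z.natAbs < p ^ z.natAbs := Nat.lt_pow_self hp.one_lt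
  omega

lemma root_comm {x g : G} {n : ℕ} (h : x ^ n = g) : x * g = g * x := by
  rw [← h, ← pow_succ, ← pow_succ']

/-- **all but finitely many primes are good** -/
theorem finite_bad [Group.FG G] (ρ : G →* Hm) (hinj : Function.Injective ρ)
    (hρ : ∀ x, IsPP univ (ρ x)) : {p : ℕ | p.Prime ∧ ¬ GoodPrime G p}.Finite := by
  obtain ⟨T, hT⟩ := exists_ring ρ hρ
  have hbad : ({p : ℕ | p.Prime ∧ ((p : ℝ)⁻¹) ∈ Algebra.adjoin ℤ (T : Set ℝ)} ∪ {2}).Finite :=
    (finite_inv_primes T).union (Set.finite_singleton 2)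
  refine hbad.subset ?_
  rintro p ⟨hp, hpbad⟩
  by_contra hcon
  apply hpbad
  rw [Set.mem_union, not_or] at hcon
  obtain ⟨hc1, hc2⟩ := hcon
  have hpT : ((p : ℝ)⁻¹) ∉ Algebra.adjoin ℤ (T : Set ℝ) := fun h => hc1 ⟨hp, h⟩
  refine ⟨hp, hc2, ?_, ?_⟩
  · intro x y hxy
    apply hinj
    apply root_unique (hρ x) (hρ y) hp.pos
    rw [← map_pow, ← map_pow, hxy]
  · intro g hg
    have hg' : ρ g ≠ 1 := fun h => hg (hinj (by rw [h, map_one]))
    rcases key ρ hρ hg' with ⟨f, hf, hfg⟩ | ⟨κ, hκ, hκg, hpar⟩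
    · refine ⟨(f g).natAbs, ?_⟩
      intro x hx
      have h1 := hf.pow (root_comm hx) (p ^ (f g).natAbs)
      rw [hx, nsmul_eq_mul] at h1
      exact not_dvd_pow hfg hp ⟨_, h1⟩
    · obtain ⟨k, hk⟩ := krull T hp hpT hκg
      refine ⟨k, ?_⟩
      intro x hx
      have h1 := hκ.pow (root_comm hx) (p ^ k)
      rw [hx, nsmul_eq_mul] at h1
      have hA : ∀ x ∈ (Algebra.adjoin ℤ (T : Set ℝ) : Set ℝ),
          -x ∈ (Algebra.adjoin ℤ (T : Set ℝ) : Set ℝ) := fun x hx =>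
        (Algebra.adjoin ℤ (T : Set ℝ)).neg_mem hx
      apply hk (κ x) ((hT x).par_mem hA (hpar x (root_comm hx)))
      rw [h1]
      push_cast
      rfl

end Pool.Agent.W2helper35.PP
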