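import Pool.Agent.W2helper35.PP.Root

/-!
# The jump cocycle of the logarithm of the derivative
-/

set_option autoImplicit false
set_option linter.unusedSectionVars false

namespace Pool.Agent.W2helper35.PP

open Filter Topology Set
open Pool.Agent.Y72.Pl (Hm mul_ap one_ap inv_ap ap_inv tr tl ne_right ne_left)

/-- the slope along a filter -/
def Sl (F : Filter ℝ) (f : ℝ → ℝ) (x m : ℝ) : Prop :=
  Tendsto (fun z => (f z - f x) / (z - x)) F (𝓝 m)

lemma Sl.comp {F F' : Filter ℝ} {f : Hm} {g : ℝ → ℝ} {x m m' : ℝ} (h : Sl F f x m)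
    (h' : Sl F' g (f x) m') (ht : Tendsto f F F') (hF : ∀ᶠ z in F, z ≠ x) :
    Sl F (fun z => g (f z)) x (m' * m) := by
  have h0 : Tendsto (fun z => (g z - g (f x)) / (z - f x)) F' (𝓝 m') := h'
  have h00 : Tendsto (fun z => (f z - f x) / (z - x)) F (𝓝 m) := h
  have h1 := (Tendsto.comp h0 ht).mul h00
  refine h1.congr' ?_
  filter_upwards [hF] with z hz
  have h2 : f z - f x ≠ 0 := sub_ne_zero.2 (fun hc => hz (f.injective hc))
  have h3 : z - x ≠ 0 := sub_ne_zero.2 hz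
  show (g (f z) - g (f x)) / (f z - f x) * ((f z - f x) / (z - x)) = (g (f z) - g (f x)) / (z - x)
  field_simp

lemma Mob.sl {f : ℝ → ℝ} {J : Set ℝ} (h : Mob univ f J) {x : ℝ} (hx : x ∈ J) :
    ∃ m : ℝ, 0 < m ∧ ∀ F : Filter ℝ, F ≤ 𝓝 x → (∀ᶠ z in F, z ∈ J) → (∀ᶠ z in F, z ≠ x) →
      Sl F f x m := by
  obtain ⟨a, _, b, _, c, _, d, _, h1, h2⟩ := h
  have h3 := h2 x hx
  have hu := pole h1 h3
  refine ⟨((c * x + d) * (c * x + d))⁻¹, inv_pos.2 (mul_self_pos.2 hu), ?_⟩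
  intro F hF hJ hne
  have h4 : Tendsto (fun z : ℝ => ((c * z + d) * (c * x + d))⁻¹) (𝓝 x)
      (𝓝 ((c * x + d) * (c * x + d))⁻¹) := by
    apply Tendsto.inv₀ _ (mul_ne_zero hu hu)
    exact (((continuous_const.mul continuous_id).add continuous_const).mul
      continuous_const).tendsto x
  refine (h4.mono_left hF).congr' ?_
  filter_upwards [hJ, hne] with z hz1 hz2
  have h5 := h2 z hz1
  have hv := pole h1 h5
  have h6 : z - x ≠ 0 := sub_ne_zero.2 hz2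
  have h7 : (f z - f x) * ((c * z + d) * (c * x + d)) = z - x := by
    linear_combination (c * x + d) * h5 - (c * z + d) * h3 + (z - x) * h1
  rw [eq_div_iff h6, ← h7]
  field_simp

lemma sl_r {f : Hm} (h : IsPP univ f) (x : ℝ) : ∃ m, 0 < m ∧ Sl (𝓝[>] x) f x m := by
  obtain ⟨y, hy, h1⟩ := h.right x
  obtain ⟨m, hm, h2⟩ := h1.sl (x := x) ⟨le_rfl, hy⟩
  refine ⟨m, hm, h2 _ nhdsWithin_le_nhds ?_ (ne_right x)⟩
  filter_upwards [Ioo_mem_nhdsGT hy] with z hz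
  exact ⟨hz.1.le, hz.2⟩

lemma sl_l {f : Hm} (h : IsPP univ f) (x : ℝ) : ∃ m, 0 < m ∧ Sl (𝓝[<] x) f x m := by
  obtain ⟨y, hy, h1⟩ := h.left x
  obtain ⟨m, hm, h2⟩ := h1.sl (x := x) ⟨hy, le_rfl⟩
  refine ⟨m, hm, h2 _ nhdsWithin_le_nhds ?_ (ne_left x)⟩
  filter_upwards [Ioo_mem_nhdsLT hy] with z hz
  exact ⟨hz.1, hz.2.le⟩

open Classical in
/-- the right slope -/
noncomputable def rs (f : Hm) (x : ℝ) : ℝ :=
  if h : ∃ m, 0 < m ∧ Sl (𝓝[>] x) f x m then h.choose else 1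

open Classical in
/-- the left slope -/
noncomputable def ls (f : Hm) (x : ℝ) : ℝ :=
  if h : ∃ m, 0 < m ∧ Sl (𝓝[<] x) f x m then h.choose else 1

lemma rs_sp {f : Hm} (h : IsPP univ f) (x : ℝ) : 0 < rs f x ∧ Sl (𝓝[>] x) f x (rs f x) := by
  unfold rs
  rw [dif_pos (sl_r h x)]
  exact (sl_r h x).choose_spec

lemma ls_sp {f : Hm} (h : IsPP univ f) (x : ℝ) : 0 < ls f x ∧ Sl (𝓝[<] x) f x (ls f x) := by
  unfold ls
  rw [dif_pos (sl_l h x)]
  exact (sl_l h x).choose_spec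

lemma rs_eq {f : Hm} {x m : ℝ} (hm : 0 < m) (h : Sl (𝓝[>] x) f x m) : rs f x = m := by
  have h1 : ∃ m, 0 < m ∧ Sl (𝓝[>] x) f x m := ⟨m, hm, h⟩
  unfold rs
  rw [dif_pos h1]
  exact tendsto_nhds_unique h1.choose_spec.2 h

lemma ls_eq {f : Hm} {x m : ℝ} (hm : 0 < m) (h : Sl (𝓝[<] x) f x m) : ls f x = m := by
  have h1 : ∃ m, 0 < m ∧ Sl (𝓝[<] x) f x m := ⟨m, hm, h⟩
  unfold ls
  rw [dif_pos h1]
  exact tendsto_nhds_unique h1.choose_spec.2 h

lemma rs_mul {f g : Hm} (hf : IsPP univ f) (hg : IsPP univ g) (x : ℝ) :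
    rs (g * f) x = rs g (f x) * rs f x := by
  obtain ⟨h1, h2⟩ := rs_sp hf x
  obtain ⟨h3, h4⟩ := rs_sp hg (f x)
  exact rs_eq (mul_pos h3 h1) (h2.comp h4 (tr f x) (ne_right x))

lemma ls_mul {f g : Hm} (hf : IsPP univ f) (hg : IsPP univ g) (x : ℝ) :
    ls (g * f) x = ls g (f x) * ls f x := by
  obtain ⟨h1, h2⟩ := ls_sp hf x
  obtain ⟨h3, h4⟩ := ls_sp hg (f x)
  exact ls_eq (mul_pos h3 h1) (h2.comp h4 (tl f x) (ne_left x))

/-- the jump of the logarithm of the derivative -/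
noncomputable def jp (f : Hm) (x : ℝ) : ℝ := Real.log (rs f x) - Real.log (ls f x)

lemma jp_mul {f g : Hm} (hf : IsPP univ f) (hg : IsPP univ g) (x : ℝ) :
    jp (g * f) x = jp g (f x) + jp f x := by
  unfold jp
  rw [rs_mul hf hg, ls_mul hf hg, Real.log_mul (rs_sp hg _).1.ne' (rs_sp hf _).1.ne',
    Real.log_mul (ls_sp hg _).1.ne' (ls_sp hf _).1.ne']
  ring

lemma jp_zero {f : Hm} (h : IsPP univ f) : ∃ s : Finset ℝ, ∀ x, x ∉ s → jp f x = 0 := by
  obtain ⟨s, hs⟩ := h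
  refine ⟨s, ?_⟩
  intro x hx
  obtain ⟨y, hy, h1⟩ := Pool.Agent.Y72.Pl.gap_r s x
  obtain ⟨w, hw, h2⟩ := Pool.Agent.Y72.Pl.gap_l s x
  obtain ⟨m, hm, h3⟩ := (hs (Ioo w y) ordConnected_Ioo (by
    intro t ht h4
    rcases h1 t ht with h5 | h5
    · rcases h2 t ht with h6 | h6
      · exact absurd h4.1 (not_lt.2 h6)
      · have h7 : t = x := le_antisymm h5 h6
        rw [h7] at ht
        exact hx ht
    · exact absurd h4.2 (not_lt.2 h5))).sl (x := x) ⟨hw, hy⟩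
  have h4 := h3 (𝓝[>] x) nhdsWithin_le_nhds (by
    filter_upwards [Ioo_mem_nhdsGT hy] with z hz
    exact ⟨hw.trans hz.1, hz.2⟩) (ne_right x)
  have h5 := h3 (𝓝[<] x) nhdsWithin_le_nhds (by
    filter_upwards [Ioo_mem_nhdsLT hw] with z hz
    exact ⟨hz.1, hz.2.trans hy⟩) (ne_left x)
  unfold jp
  rw [rs_eq hm h4, ls_eq hm h5, sub_self]

lemma jp_one (x : ℝ) : jp 1 x = 0 := by
  have h := jp_mul (f := 1) (g := 1) ((isPP_one ⊤).mono (subset_univ _))
    ((isPP_one ⊤).mono (subset_univ _)) x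
  rw [mul_one, one_ap] at h
  linarith

lemma isPP_inv {f : Hm} (hf : IsPP univ f) : IsPP univ f⁻¹ := by
  have h1 : IsPP ((⊤ : Subring ℝ) : Set ℝ) f := hf.mono (by simp)
  exact h1.inv.mono (subset_univ _)

lemma isPP_mul {f g : Hm} (hf : IsPP univ f) (hg : IsPP univ g) : IsPP univ (f * g) := by
  have h1 : IsPP ((⊤ : Subring ℝ) : Set ℝ) f := hf.mono (by simp)
  have h2 : IsPP ((⊤ : Subring ℝ) : Set ℝ) g := hg.mono (by simp)
  exact (h1.mul h2).mono (subset_univ _)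

lemma jp_inv {f : Hm} (hf : IsPP univ f) (x : ℝ) : jp f⁻¹ x = - jp f (f⁻¹ x) := by
  have h := jp_mul (f := f⁻¹) (g := f) (isPP_inv hf) hf x
  rw [mul_inv_cancel, jp_one] at h
  linarith

/-- the jump at the leftmost point of the support -/
lemma jp_ne {c : Hm} {a : ℝ} (ha : ∀ z, z ≤ a → c z = z) {l b : ℝ}
    (h : Ger (𝓝[>] a) (wa a) c l b) (hl : l ≠ 1) : jp c a ≠ 0 := by
  have hca : c a = a := ha a le_rfl
  have hl0 : 0 < l := h.pos (isEnd_right a) (tr_fix hca)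
  have h1 : Sl (𝓝[<] a) c a 1 := by
    refine tendsto_const_nhds.congr' ?_
    filter_upwards [self_mem_nhdsWithin] with z hz
    have hz' : z < a := hz
    rw [ha z hz'.le, hca, div_self (sub_ne_zero.2 hz'.ne)]
  have h2 : Sl (𝓝[>] a) c a l⁻¹ := by
    have h3 : Tendsto (fun z : ℝ => (l - b * (z - a))⁻¹) (𝓝 a) (𝓝 (l - b * (a - a))⁻¹) := by
      apply Tendsto.inv₀
      · exact (continuous_const.sub (continuous_const.mul
          (continuous_id.sub continuous_const))).tendsto a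
      · rw [sub_self, mul_zero, sub_zero]
        exact hl0.ne'
    rw [sub_self, mul_zero, sub_zero] at h3
    refine (h3.mono_left nhdsWithin_le_nhds).congr' ?_
    filter_upwards [h, self_mem_nhdsWithin] with z hz1 hz2
    have hz' : a < z := hz2
    have h4 : z - a ≠ 0 := sub_ne_zero.2 hz'.ne'
    have h5 : c z - a ≠ 0 := by
      have h6 : a < c z := by
        have h7 := c.strictMono hz'
        rwa [hca] at h7
      exact sub_ne_zero.2 h6.ne'
    have h6 : -(c z - a)⁻¹ = l * (-(z - a)⁻¹) + b := hz1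
    have h7 : l - b * (z - a) = (z - a) / (c z - a) := by
      have h8 : (c z - a)⁻¹ = l * (z - a)⁻¹ - b := by linarith
      rw [div_eq_mul_inv, h8]
      field_simp
    rw [hca, h7, inv_div]
  unfold jp
  rw [rs_eq (inv_pos.2 hl0) h2, ls_eq one_pos h1, Real.log_one, sub_zero, Real.log_inv, neg_ne_zero]
  exact Real.log_ne_zero_of_pos_of_ne_one hl0 hl

end Pool.Agent.W2helper35.PP
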