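import Pool.Agent.W2helper35.PP.Good
import Pool.Agent.Y72.Un.Tr
import Pool.Agent.Y72.Un.All
import Pool.Agent.H23R2.Odd.Sub

/-!
# Invertible matrices over integral group rings of groups of piecewise projective homeomorphisms
-/

set_option autoImplicit false
set_option linter.unusedSectionVars false

namespace Pool.Agent.W2helper35.PP

open Pool.Agent.Y72.Log Pool.Agent.Y72.Dt Pool.Agent.Y72.Un Pool.Agent.Y72.Tr H219.Wh
open Pool.Agent.H23R2 (IsCoc pairing isCoc_of_hochschild GoodPrime)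
open Pool.Agent.Y72.Pl (Hm)

universe u v w

/-- residually piecewise projective, with parameters of the parabolic germs in a group which is
residually infinite cyclic -/
def RPP (Γ : Type u) [Group Γ] : Prop :=
  ∀ g : Γ, g ≠ 1 → ∃ ρ : Γ →* Hm, ρ g ≠ 1 ∧ (∀ x : Γ, IsPP Set.univ (ρ x)) ∧
    ∃ B : AddSubgroup ℝ, (∀ t : B, t ≠ 0 → ∃ φ : B →+ ℤ, φ t ≠ 0) ∧
      ∀ (x : Γ) (κ : ℝ), IsPar (ρ x) κ → κ ∈ B

variable {Γ : Type u} [Group Γ]

lemma RPP.subgroup (h : RPP Γ) (H : Subgroup Γ) : RPP H := by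
  intro g hg
  obtain ⟨ρ, h1, h2, B, h3, h4⟩ := h g.1 (fun hc => hg (Subtype.ext hc))
  exact ⟨ρ.comp H.subtype, h1, fun x => h2 x, B, h3, fun x => h4 x⟩

/-- the integral homomorphism -/
lemma RPP.int [Group.FG Γ] (h : RPP Γ) {c : Γ} (hc : c ≠ 1) :
    ∃ f : Γ → ℤ, AddOn c f ∧ f c ≠ 0 := by
  classical
  obtain ⟨ρ, h1, h2, B, h3, h4⟩ := h c hc
  rcases key ρ h2 h1 with h5 | ⟨κ, hκ, hκc, hpar⟩
  · exact h5
  · have hB : ∀ x, x * c = c * x → κ x ∈ B := fun x hx => h4 x _ (hpar x hx)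
    obtain ⟨φ, hφ⟩ := h3 ⟨κ c, hB c rfl⟩ (fun hc => hκc (congrArg Subtype.val hc))
    refine ⟨fun x => if h : x * c = c * x then φ ⟨κ x, hB x h⟩ else 0, ?_, ?_⟩
    · intro x y hx hy
      have hxy : (x * y) * c = c * (x * y) := by
        rw [mul_assoc, hy, ← mul_assoc, hx, mul_assoc]
      simp only [dif_pos hx, dif_pos hy, dif_pos hxy]
      rw [← map_add]
      congr 1
      exact Subtype.ext (hκ x y hx hy)
    · simp only [dif_pos trivial]
      exact hφ

lemma RPP.root (h : RPP Γ) {x y : Γ} {l : ℕ} (hl : 0 < l) (hxy : x ^ l = y ^ l) : x = y := by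
  by_contra hne
  have h1 : x * y⁻¹ ≠ 1 := fun hc => hne (mul_inv_eq_one.1 hc)
  obtain ⟨ρ, h2, h3, _⟩ := h _ h1
  apply h2
  rw [map_mul, map_inv, mul_inv_eq_one]
  apply root_unique (h3 x) (h3 y) hl
  rw [← map_pow, ← map_pow, hxy]

lemma RPP.tf (h : RPP Γ) {g : Γ} {m : ℕ} (hm : 0 < m) (hg : g ^ m = 1) : g = 1 :=
  h.root hm (by rw [hg, one_pow])

lemma RPP.cn [Group.FG Γ] (h : RPP Γ) : Cn Γ where
  tf := fun g m hm hg => h.tf hm hg
  ur := by
    have h1 : {l : ℕ | l.Prime ∧ ∀ x y : Γ, x ^ l = y ^ l → x = y} = {l : ℕ | l.Prime} := by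
      ext l
      constructor
      · exact fun h2 => h2.1
      · exact fun h2 => ⟨h2, fun x y hxy => h.root (Nat.Prime.pos h2) hxy⟩
    unfold UR
    rw [h1]
    exact Nat.infinite_setOfPred_prime
  fd := by
    intro c hc
    obtain ⟨f, hf, hfc⟩ := h.int hc
    apply (Finset.finite_toSet (Finset.range ((f c).natAbs + 1))).subset
    rintro l ⟨hl, x, hx⟩
    have h1 : x * c = c * x := by rw [← hx, ← pow_succ, ← pow_succ']
    have h2 := hf.pow h1 l
    rw [hx, nsmul_eq_mul] at h2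
    have h3 : l ∣ (f c).natAbs := by
      rw [← Int.natCast_dvd]
      exact ⟨_, h2⟩
    have h4 := Nat.le_of_dvd (Int.natAbs_pos.2 hfc) h3
    rw [Finset.mem_coe, Finset.mem_range]
    omega
  cl := fun c hc => Or.inl (h.int hc)

/-- **the main theorem, integral parabolic germs** -/
theorem pp_main (h : RPP Γ) {n : ℕ} (A : (Matrix (Fin n) (Fin n) (MonoidAlgebra ℤ Γ))ˣ) :
    ∃ ε : ℤ, (ε = 1 ∨ ε = -1) ∧ ∃ γ : Γ,
      (∀ (L : Type w) [Field L] (d : ℕ) (σ : Γ →* GL (Fin d) L),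
        (Matrix.of fun x y : Fin n × Fin d =>
          (A.val x.1 y.1).coeff.sum fun g a => (a : L) * (σ g).val x.2 y.2).det =
            (ε : L) ^ d * (σ γ).val.det) ∧
      ∃ k : ℕ, 0 < k ∧ ∀ (M : Type v) [AddCommGroup M] (f : Γ → Γ → M),
        (∀ x y z : Γ, f (x * y) z - f x (y * z) + f (z * x) y = 0) →
        k • ((∑ i, ∑ j, ((A⁻¹).val i j).coeff.sum fun g b =>
            (A.val j i).coeff.sum fun h a => (b * a) • f g h) - f γ⁻¹ γ) = 0 ∧
        ∀ m : ℕ, 0 < m → ∃ y : M,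
          (∑ i, ∑ j, ((A⁻¹).val i j).coeff.sum fun g b =>
            (A.val j i).coeff.sum fun h a => (b * a) • f g h) - f γ⁻¹ γ = m • y := by
  obtain ⟨H, hH, hS⟩ := exists_fg A
  obtain ⟨A', hA'⟩ := exists_sub A H hS
  haveI : Group.FG H := (Group.fg_iff_subgroup_fg H).2 hH
  have hn : Cn H := (h.subgroup H).cn
  obtain ⟨k, hk, h1⟩ := PD_tors.{v} A' hn
  refine ⟨DD (trv H ℤ) A'.val, sign_pm A', (gamA A' : H), ?_, k, hk, ?_⟩
  · intro L _ d σ
    let ρ' : Γ →* Matrix (Fin d) (Fin d) L := (Units.coeHom _).comp σ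
    have h1 := all_reps_sign hn A' (ρ'.comp H.subtype)
    have h2 : DD (ρ'.comp H.subtype) A'.val = (Matrix.of fun x y : Fin n × Fin d =>
        (A.val x.1 y.1).coeff.sum fun g a => (a : L) * (σ g).val x.2 y.2).det := by
      unfold DD
      rw [← blkR_mpU, ← hA']
      congr 1
      ext1 x y
      exact lrG_apply ρ' (A.val x.1 y.1) x.2 y.2
    rw [h2, Int.cast_pow] at h1
    exact h1
  · intro M _ f hf
    have hcoc : IsCoc (fun (w x : H) => f ((x⁻¹ : H) * (w : H) : H) (x : H)) :=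
      isCoc_of_hochschild (fun x y : H => f x y) (fun x y z => hf x y z)
    have h2 : pairing f (A⁻¹).val A.val =
        PD A' (fun (w x : H) => f ((x⁻¹ : H) * (w : H) : H) (x : H)) := by
      rw [hA', pairing_mpU]
      exact pairing_PD A' (fun x y : H => f x y)
    have h3 : f ((gamA A' : H) : Γ)⁻¹ ((gamA A' : H) : Γ) =
        (fun (w x : H) => f ((x⁻¹ : H) * (w : H) : H) (x : H)) 1 (gamA A') := by
      simp
    have h4 : (∑ i, ∑ j, ((A⁻¹).val i j).coeff.sum fun g b =>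
        (A.val j i).coeff.sum fun h a => (b * a) • f g h) = pairing f (A⁻¹).val A.val := rfl
    rw [h4, h2, h3]
    exact ⟨h1 M _ hcoc, fun m hm => PD_div A' hn hcoc m hm⟩

end Pool.Agent.W2helper35.PP
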