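import Pool.Agent.W2helper35.PP.Germ

/-!
# Piecewise projective homeomorphisms of the line
-/

set_option autoImplicit false
set_option linter.unusedSectionVars false

namespace Pool.Agent.W2helper35.PP

open Filter Topology Set
open Pool.Agent.Y72.Pl (Hm mul_ap one_ap inv_ap ap_inv tr tl ne_right ne_left)

/-- `f` is a fractional linear map with coefficients in `A` and determinant `1` on `J` -/
def Mob (A : Set ℝ) (f : ℝ → ℝ) (J : Set ℝ) : Prop :=
  ∃ a ∈ A, ∃ b ∈ A, ∃ c ∈ A, ∃ d ∈ A, a * d - b * c = 1 ∧ ∀ z ∈ J, f z * (c * z + d) = a * z + b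

/-- piecewise projective: there is a finite set such that the homeomorphism is a fractional linear
map with coefficients in `A` and determinant `1` on every interval which does not meet it -/
def IsPP (A : Set ℝ) (f : Hm) : Prop :=
  ∃ s : Finset ℝ, ∀ J : Set ℝ, J.OrdConnected → (∀ t ∈ s, t ∉ J) → Mob A f J

lemma Mob.mono {A B : Set ℝ} (hAB : A ⊆ B) {f : ℝ → ℝ} {J K : Set ℝ} (hKJ : K ⊆ J)
    (h : Mob A f J) : Mob B f K := by
  obtain ⟨a, ha, b, hb, c, hc, d, hd, h1, h2⟩ := h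
  exact ⟨a, hAB ha, b, hAB hb, c, hAB hc, d, hAB hd, h1, fun z hz => h2 z (hKJ hz)⟩

lemma IsPP.mono {A B : Set ℝ} (hAB : A ⊆ B) {f : Hm} (h : IsPP A f) : IsPP B f := by
  obtain ⟨s, hs⟩ := h
  exact ⟨s, fun J h1 h2 => (hs J h1 h2).mono hAB subset_rfl⟩

lemma isPP_one (A : Subring ℝ) : IsPP A 1 := by
  refine ⟨∅, fun J _ _ => ⟨1, A.one_mem, 0, A.zero_mem, 0, A.zero_mem, 1, A.one_mem, by ring, ?_⟩⟩
  intro z _
  rw [one_ap]
  ring

lemma ordConnected_image (f : Hm) {J : Set ℝ} (h : J.OrdConnected) : (f '' J).OrdConnected := by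
  refine ⟨?_⟩
  rintro _ ⟨x, hx, rfl⟩ _ ⟨y, hy, rfl⟩ z ⟨h1, h2⟩
  refine ⟨f⁻¹ z, ?_, ap_inv f z⟩
  apply h.out hx hy
  constructor
  · have h3 := (f⁻¹).monotone h1
    rwa [inv_ap] at h3
  · have h3 := (f⁻¹).monotone h2
    rwa [inv_ap] at h3

lemma IsPP.inv {A : Subring ℝ} {f : Hm} (h : IsPP A f) : IsPP A f⁻¹ := by
  classical
  obtain ⟨s, hs⟩ := h
  refine ⟨s.image f, ?_⟩
  intro J hJ hsJ
  have h1 : (∀ t ∈ s, t ∉ (f⁻¹ : Hm) '' J) := by
    rintro t ht ⟨z, hz, h2⟩
    apply hsJ (f t) (Finset.mem_image_of_mem _ ht)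
    rw [← h2, ap_inv]
    exact hz
  obtain ⟨a, ha, b, hb, c, hc, d, hd, h2, h3⟩ := hs _ (ordConnected_image f⁻¹ hJ) h1
  refine ⟨d, hd, -b, A.neg_mem hb, -c, A.neg_mem hc, a, ha, by linarith, ?_⟩
  intro z hz
  have h4 := h3 (f⁻¹ z) ⟨z, hz, rfl⟩
  rw [ap_inv] at h4
  linarith

lemma IsPP.mul {A : Subring ℝ} {f g : Hm} (hf : IsPP A f) (hg : IsPP A g) : IsPP A (f * g) := by
  classical
  obtain ⟨s, hs⟩ := hf
  obtain ⟨s', hs'⟩ := hg
  refine ⟨s' ∪ s.image (g⁻¹ : Hm), ?_⟩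
  intro J hJ hsJ
  have h1 : ∀ t ∈ s', t ∉ J := fun t ht => hsJ t (Finset.mem_union_left _ ht)
  have h2 : ∀ t ∈ s, t ∉ g '' J := by
    rintro t ht ⟨z, hz, h2⟩
    apply hsJ (g⁻¹ t) (Finset.mem_union_right _ (Finset.mem_image_of_mem _ ht))
    rw [← h2, inv_ap]
    exact hz
  obtain ⟨a, ha, b, hb, c, hc, d, hd, h3, h4⟩ := hs _ (ordConnected_image g hJ) h2
  obtain ⟨a', ha', b', hb', c', hc', d', hd', h5, h6⟩ := hs' J hJ h1
  refine ⟨a * a' + b * c', A.add_mem (A.mul_mem ha ha') (A.mul_mem hb hc'),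
    a * b' + b * d', A.add_mem (A.mul_mem ha hb') (A.mul_mem hb hd'),
    c * a' + d * c', A.add_mem (A.mul_mem hc ha') (A.mul_mem hd hc'),
    c * b' + d * d', A.add_mem (A.mul_mem hc hb') (A.mul_mem hd hd'), ?_, ?_⟩
  · have : (a * a' + b * c') * (c * b' + d * d') - (a * b' + b * d') * (c * a' + d * c') =
        (a * d - b * c) * (a' * d' - b' * c') := by ring
    rw [this, h3, h5, one_mul]
  · intro z hz
    have h7 := h4 (g z) ⟨z, hz, rfl⟩
    have h8 := h6 z hz
    show f (g z) * ((c * a' + d * c') * z + (c * b' + d * d')) =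
      (a * a' + b * c') * z + (a * b' + b * d')
    have h9 : f (g z) * (c * (a' * z + b') + d * (c' * z + d')) =
        a * (a' * z + b') + b * (c' * z + d') := by
      rw [← h8]
      linear_combination (c' * z + d') * h7
    linarith

open Classical in
/-- the coefficients of a piecewise projective homeomorphism lie in a finitely generated ring -/
lemma IsPP.fin {f : Hm} (h : IsPP univ f) : ∃ T : Finset ℝ, ∀ A : Set ℝ, (∀ t ∈ T, t ∈ A) →
    IsPP A f := by
  obtain ⟨s, hs⟩ := h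
  let K : Finset ℝ → Set ℝ := fun U => {z | ∀ t ∈ s, (t ∈ U → t < z) ∧ (t ∉ U → z < t)}
  have hK1 : ∀ U, (K U).OrdConnected := by
    intro U
    refine ⟨?_⟩
    rintro x hx y hy z ⟨h1, h2⟩ t ht
    exact ⟨fun h3 => lt_of_lt_of_le ((hx t ht).1 h3) h1,
      fun h3 => lt_of_le_of_lt h2 ((hy t ht).2 h3)⟩
  have hK2 : ∀ U, ∀ t ∈ s, t ∉ K U := by
    intro U t ht h1
    by_cases h2 : t ∈ U
    · exact lt_irrefl _ ((h1 t ht).1 h2)
    · exact lt_irrefl _ ((h1 t ht).2 h2)
  have h1 : ∀ U, ∃ a b c d : ℝ, a * d - b * c = 1 ∧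
      ∀ z ∈ K U, f z * (c * z + d) = a * z + b := by
    intro U
    obtain ⟨a, _, b, _, c, _, d, _, h2⟩ := hs (K U) (hK1 U) (hK2 U)
    exact ⟨a, b, c, d, h2⟩
  choose a b c d h2 h3 using h1
  refine ⟨s.powerset.biUnion fun U => {a U, b U, c U, d U}, ?_⟩
  intro A hA
  have hmem : ∀ U ⊆ s, a U ∈ A ∧ b U ∈ A ∧ c U ∈ A ∧ d U ∈ A := by
    intro U hU
    have h4 : ∀ x, x = a U ∨ x = b U ∨ x = c U ∨ x = d U → x ∈ A := by
      intro x hx
      apply hA
      rw [Finset.mem_biUnion]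
      refine ⟨U, Finset.mem_powerset.2 hU, ?_⟩
      simpa using hx
    exact ⟨h4 _ (Or.inl rfl), h4 _ (Or.inr (Or.inl rfl)), h4 _ (Or.inr (Or.inr (Or.inl rfl))),
      h4 _ (Or.inr (Or.inr (Or.inr rfl)))⟩
  refine ⟨s, ?_⟩
  intro J hJ hsJ
  have hcase : ∃ U ⊆ s, J ⊆ K U := by
    rcases J.eq_empty_or_nonempty with h0 | ⟨z0, hz0⟩
    · exact ⟨∅, Finset.empty_subset _, by rw [h0]; exact empty_subset _⟩
    · refine ⟨s.filter fun t => t < z0, Finset.filter_subset _ _, ?_⟩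
      intro z hz t ht
      constructor
      · intro h4
        have h5 := (Finset.mem_filter.1 h4).2
        by_contra h6
        push Not at h6
        exact hsJ t ht (hJ.out hz hz0 ⟨h6, h5.le⟩)
      · intro h4
        have h5 : z0 ≤ t := by
          by_contra h6
          push Not at h6
          exact h4 (Finset.mem_filter.2 ⟨ht, h6⟩)
        by_contra h6
        push Not at h6
        exact hsJ t ht (hJ.out hz0 hz ⟨h5, h6⟩)
  obtain ⟨U, hU, hJU⟩ := hcase
  obtain ⟨m1, m2, m3, m4⟩ := hmem U hU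
  exact ⟨a U, m1, b U, m2, c U, m3, d U, m4, h2 U, fun z hz => h3 U z (hJU hz)⟩

/-- the point of an interval on which the map is fractional linear is not a pole -/
lemma pole {a b c d y z : ℝ} (h : a * d - b * c = 1) (h1 : y * (c * z + d) = a * z + b) :
    c * z + d ≠ 0 := by
  intro h2
  rw [h2, mul_zero] at h1
  have h3 : (0 : ℝ) = 1 := by
    linear_combination h + (-a) * h2 - c * h1
  exact zero_ne_one h3

/-- a piece to the left -/
lemma IsPP.bot {A : Set ℝ} {f : Hm} (h : IsPP A f) : ∃ R : ℝ, Mob A f (Iio R) := by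
  obtain ⟨s, hs⟩ := h
  have h1 : ∃ R : ℝ, ∀ t ∈ s, R ≤ t := by
    rcases s.eq_empty_or_nonempty with h0 | h0
    · exact ⟨0, fun t ht => by rw [h0] at ht; exact absurd ht (Finset.notMem_empty _)⟩
    · exact ⟨s.min' h0, fun t ht => Finset.min'_le _ _ ht⟩
  obtain ⟨R, hR⟩ := h1
  exact ⟨R, hs _ ordConnected_Iio fun t ht h2 => absurd (hR t ht) (not_le.2 h2)⟩

/-- a piece to the right of a point -/
lemma IsPP.right {A : Set ℝ} {f : Hm} (h : IsPP A f) (x : ℝ) :
    ∃ y, x < y ∧ Mob A f (Ico x y) := by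
  obtain ⟨s, hs⟩ := h
  obtain ⟨y, hy, h1⟩ := Pool.Agent.Y72.Pl.gap_r s x
  refine ⟨y, hy, ?_⟩
  obtain ⟨a, ha, b, hb, c, hc, d, hd, h2, h3⟩ := hs (Ioo x y) ordConnected_Ioo (by
    intro t ht h4
    rcases h1 t ht with h5 | h5
    · exact absurd h4.1 (not_lt.2 h5)
    · exact absurd h4.2 (not_lt.2 h5))
  refine ⟨a, ha, b, hb, c, hc, d, hd, h2, ?_⟩
  intro z hz
  rcases eq_or_lt_of_le hz.1 with h4 | h4
  · rw [← h4]
    have hcl : IsClosed {z : ℝ | f z * (c * z + d) = a * z + b} :=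
      isClosed_eq (f.continuous.mul ((continuous_const.mul continuous_id).add continuous_const))
        ((continuous_const.mul continuous_id).add continuous_const)
    have h5 : x ∈ closure (Ioo x y) := by
      rw [closure_Ioo hy.ne]
      exact ⟨le_rfl, hy.le⟩
    exact closure_minimal (fun z hz => h3 z hz) hcl h5
  · exact h3 z ⟨h4, hz.2⟩

/-- a piece to the left of a point -/
lemma IsPP.left {A : Set ℝ} {f : Hm} (h : IsPP A f) (x : ℝ) :
    ∃ y, y < x ∧ Mob A f (Ioc y x) := by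
  obtain ⟨s, hs⟩ := h
  obtain ⟨y, hy, h1⟩ := Pool.Agent.Y72.Pl.gap_l s x
  refine ⟨y, hy, ?_⟩
  obtain ⟨a, ha, b, hb, c, hc, d, hd, h2, h3⟩ := hs (Ioo y x) ordConnected_Ioo (by
    intro t ht h4
    rcases h1 t ht with h5 | h5
    · exact absurd h4.1 (not_lt.2 h5)
    · exact absurd h4.2 (not_lt.2 h5))
  refine ⟨a, ha, b, hb, c, hc, d, hd, h2, ?_⟩
  intro z hz
  rcases eq_or_lt_of_le hz.2 with h4 | h4
  · rw [h4]
    have hcl : IsClosed {z : ℝ | f z * (c * z + d) = a * z + b} :=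
      isClosed_eq (f.continuous.mul ((continuous_const.mul continuous_id).add continuous_const))
        ((continuous_const.mul continuous_id).add continuous_const)
    have h5 : x ∈ closure (Ioo y x) := by
      rw [closure_Ioo hy.ne]
      exact ⟨hy.le, le_rfl⟩
    exact closure_minimal (fun z hz => h3 z hz) hcl h5
  · exact h3 z ⟨hz.1, h4⟩

/-- the germ at `-∞` -/
lemma IsPP.ger_bot {A : Set ℝ} (hA : ∀ x ∈ A, -x ∈ A) {f : Hm} (h : IsPP A f) :
    ∃ l b : ℝ, Ger atBot id f l b ∧ (l = 1 → b ∈ A) := by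
  obtain ⟨R, a, ha, b, hb, c, hc, d, hd, h1, h2⟩ := h.bot
  have hc0 : c = 0 := by
    by_contra hne
    have hc2 : 0 < c * c := mul_self_pos.2 hne
    have e1 : ∀ᶠ z in atBot, f z < a / c - 1 :=
      (tend_bot f).eventually (eventually_lt_atBot _)
    have e2 : ∀ᶠ z : ℝ in atBot, z < (-1 - c * d) / (c * c) := eventually_lt_atBot _
    have e3 : ∀ᶠ z : ℝ in atBot, z < R := eventually_lt_atBot _
    obtain ⟨z, h3, h4, h5⟩ := (e1.and (e2.and e3)).exists
    have h6 := h2 z h5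
    have h7 : c * (c * z + d) < -1 := by
      rw [lt_div_iff₀ hc2] at h4
      linarith
    have h8 : (f z - a / c) * (c * (c * z + d)) = -1 := by
      have h9 : (f z - a / c) * (c * (c * z + d)) = c * (f z * (c * z + d)) - a * (c * z + d) := by
        field_simp
      rw [h9, h6]
      linarith
    have h9 : f z - a / c < -1 := by linarith
    nlinarith
  rw [hc0, mul_zero, sub_zero] at h1
  refine ⟨a * a, a * b, ?_, ?_⟩
  · filter_upwards [eventually_lt_atBot R] with z hz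
    have h3 := h2 z hz
    rw [hc0, zero_mul, zero_add] at h3
    show f z = a * a * z + a * b
    calc f z = a * (f z * d) := by
          rw [mul_comm (f z), ← mul_assoc, h1, one_mul]
      _ = a * a * z + a * b := by rw [h3]; ring
  · intro h3
    rcases mul_self_eq_one_iff.1 h3 with h4 | h4
    · rw [h4, one_mul]
      exact hb
    · rw [h4, neg_one_mul]
      exact hA b hb

/-- the germ to the right of a fixed point -/
lemma IsPP.ger_right {A : Set ℝ} (hA : ∀ x ∈ A, -x ∈ A) {f : Hm} (h : IsPP A f) {x : ℝ}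
    (hx : f x = x) : ∃ l b : ℝ, Ger (𝓝[>] x) (wa x) f l b ∧ (l = 1 → b ∈ A) := by
  obtain ⟨y, hy, a, ha, b, hb, c, hc, d, hd, h1, h2⟩ := h.right x
  have h3 := h2 x ⟨le_rfl, hy⟩
  have hu := pole h1 h3
  rw [hx] at h3
  have hu1 : (c * x + d) * (a - x * c) = 1 := by
    linear_combination h1 - c * h3
  refine ⟨(c * x + d) * (c * x + d), -((c * x + d) * c), ?_, ?_⟩
  · filter_upwards [Ioo_mem_nhdsGT hy] with z hz
    have h4 := h2 z ⟨hz.1.le, hz.2⟩
    have h5 := pole h1 h4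
    have h6 : z - x ≠ 0 := sub_ne_zero.2 (ne_of_gt hz.1)
    have h7 : (f z - x) * (c * z + d) * (c * x + d) = z - x := by
      linear_combination (c * x + d) * h4 - (c * z + d) * h3 + (z - x) * h1
    have h8 : f z - x ≠ 0 := by
      intro h8
      rw [h8, zero_mul, zero_mul] at h7
      exact h6 h7.symm
    show -(f z - x)⁻¹ = (c * x + d) * (c * x + d) * (-(z - x)⁻¹) + -((c * x + d) * c)
    rw [← h7] at h6 ⊢
    have h9 : z = x + (f z - x) * (c * z + d) * (c * x + d) := by linarith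
    field_simp
    linear_combination c * h7
  · intro h4
    rcases mul_self_eq_one_iff.1 h4 with h5 | h5
    · rw [h5, one_mul]
      exact hA c hc
    · rw [h5, neg_one_mul, neg_neg]
      exact hc

end Pool.Agent.W2helper35.PP
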