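import Pool.Agent.W2helper35.PP.Piece
import Pool.Agent.Y72.Pl.Cen

/-!
# Roots of piecewise projective homeomorphisms are unique
-/

set_option autoImplicit false
set_option linter.unusedSectionVars false

namespace Pool.Agent.W2helper35.PP

open Filter Topology Set
open Pool.Agent.Y72.Pl (Hm mul_ap one_ap inv_ap ap_inv tr tl agree_right)

/-- the leftmost point to the right of which two maps are different -/
lemma leftmost {f g : Hm} (h0 : ∀ᶠ z in atBot, f z = g z) (hne : f ≠ g) :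
    ∃ a : ℝ, (∀ z, z ≤ a → f z = g z) ∧ ∃ᶠ z in 𝓝[>] a, f z ≠ g z := by
  obtain ⟨R, hR⟩ := eventually_atBot.1 h0
  have hex : ∃ z0, f z0 ≠ g z0 := by
    by_contra hc
    push Not at hc
    exact hne (RelIso.ext hc)
  obtain ⟨z0, hz0⟩ := hex
  set E : Set ℝ := {t | ∀ z, z ≤ t → f z = g z} with hE
  have hEne : E.Nonempty := ⟨R, fun z hz => hR z hz⟩
  have hbd : BddAbove E := by
    refine ⟨z0, ?_⟩
    intro t ht
    by_contra hc
    exact hz0 (ht z0 (not_le.1 hc).le)
  have hlt : ∀ z, z < sSup E → f z = g z := by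
    intro z hz
    obtain ⟨t, ht, htz⟩ := exists_lt_of_lt_csSup hEne hz
    exact ht z htz.le
  have hle : ∀ z, z ≤ sSup E → f z = g z := by
    intro z hz
    rcases eq_or_lt_of_le hz with h1 | h1
    · have hcl : IsClosed {w : ℝ | f w = g w} := isClosed_eq f.continuous g.continuous
      have h2 : z ∈ closure (Iio z) := by
        rw [closure_Iio]
        show z ≤ z
        exact le_rfl
      have h3 : closure (Iio z) ⊆ {w : ℝ | f w = g w} := by
        apply closure_minimal _ hcl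
        intro w hw
        exact hlt w (by rw [← h1]; exact hw)
      exact h3 h2
    · exact hlt z h1
  refine ⟨sSup E, hle, ?_⟩
  intro hc
  have hc' : ∀ᶠ z in 𝓝[>] (sSup E), f z = g z := by
    filter_upwards [hc] with z hz
    exact not_not.1 hz
  obtain ⟨u, hu, hsub⟩ := (mem_nhdsGT_iff_exists_Ioo_subset).1 hc'
  have h4 : (sSup E + u) / 2 ∈ E := by
    intro z hz
    by_cases h5 : z ≤ sSup E
    · exact hle z h5
    · apply hsub
      have h6 : sSup E < u := hu
      exact ⟨not_le.1 h5, by linarith⟩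
  have h7 := le_csSup hbd h4
  have h6 : sSup E < u := hu
  linarith

lemma tr_fix {f : Hm} {a : ℝ} (h : f a = a) : Tendsto f (𝓝[>] a) (𝓝[>] a) := by
  have h1 := tr f a
  rwa [h] at h1

/-- **uniqueness of roots** -/
theorem root_unique {f g : Hm} (hf : IsPP univ f) (hg : IsPP univ g) {n : ℕ} (hn : 0 < n)
    (hfg : f ^ n = g ^ n) : f = g := by
  have hU : ∀ x ∈ (univ : Set ℝ), -x ∈ (univ : Set ℝ) := fun _ _ => mem_univ _
  by_contra hne
  have h0 : ∀ᶠ z in atBot, f z = g z := by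
    obtain ⟨l, b, h1, _⟩ := hf.ger_bot hU
    obtain ⟨l', b', h2, _⟩ := hg.ger_bot hU
    obtain ⟨h3, h4⟩ := h1.root isEnd_bot h2 (tend_bot f) (tend_bot g) hn hfg
    rw [← h3, ← h4] at h2
    exact h1.ev_eq isEnd_bot h2
  obtain ⟨a, ha, hfr⟩ := leftmost h0 hne
  apply hfr
  have key : ∀ᶠ z in 𝓝[>] a, f z = g z := by
    rcases lt_trichotomy (f a) a with h1 | h1 | h1
    · exact agree_right ha h1 hn hfg
    · have h2 : g a = a := by rw [← ha a le_rfl, h1]
      obtain ⟨m, b, hm, _⟩ := hf.ger_right hU h1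
      obtain ⟨k, b', hk, _⟩ := hg.ger_right hU h2
      obtain ⟨h3, h4⟩ := hm.root (isEnd_right a) hk (tr_fix h1) (tr_fix h2) hn hfg
      rw [← h3, ← h4] at hk
      exact hm.ev_eq (isEnd_right a) hk
    · have h2 : ∀ z, z ≤ f a → f⁻¹ z = g⁻¹ z := by
        intro z hz
        have h3 : f⁻¹ z ≤ a := by
          have h4 := (f⁻¹).monotone hz
          rwa [inv_ap] at h4
        have h5 := ha _ h3
        rw [ap_inv] at h5
        have h6 : (g⁻¹ : Hm) z = g⁻¹ (g (f⁻¹ z)) := congrArg (fun w => (g⁻¹ : Hm) w) h5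
        rw [inv_ap] at h6
        exact h6.symm
      have h3 : f⁻¹ (f a) < f a := by
        rw [inv_ap]
        exact h1
      have h4 : f⁻¹ ^ n = g⁻¹ ^ n := by rw [inv_pow, inv_pow, hfg]
      have h5 := (tr f a).eventually (agree_right h2 h3 hn h4)
      filter_upwards [h5] with z hz
      rw [inv_ap] at hz
      have h6 := congrArg g hz
      rw [ap_inv] at h6
      exact h6.symm
  filter_upwards [key] with z hz
  exact not_not.2 hz

/-- the end at which an element is not trivial, fixed by the centraliser -/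
lemma exists_end {A : Set ℝ} (hA : ∀ x ∈ A, -x ∈ A) {c : Hm} (hc : IsPP A c) (hc1 : c ≠ 1) :
    (∃ l b : ℝ, Ger atBot id c l b ∧ (l = 1 → b ∈ A) ∧ (l = 1 → b ≠ 0)) ∨
    ∃ a : ℝ, (∀ z, z ≤ a → c z = z) ∧ (∀ g : Hm, g * c = c * g → g a = a) ∧
      ∃ l b : ℝ, Ger (𝓝[>] a) (wa a) c l b ∧ (l = 1 → b ∈ A) ∧ (l = 1 → b ≠ 0) := by
  obtain ⟨l, b, h1, h2⟩ := hc.ger_bot hA
  by_cases h3 : l = 1 → b ≠ 0
  · exact Or.inl ⟨l, b, h1, h2, h3⟩
  · right
    push Not at h3
    obtain ⟨h4, h5⟩ := h3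
    rw [h4, h5] at h1
    have h6 : ∀ᶠ z in atBot, c z = (1 : Hm) z := h1.ev_eq isEnd_bot Ger.one
    obtain ⟨a, ha, hfr⟩ := leftmost h6 hc1
    have hca : c a = a := ha a le_rfl
    refine ⟨a, ha, fun g hg => Pool.Agent.Y72.Pl.fix_left ha hfr hg, ?_⟩
    obtain ⟨l', b', h7, h8⟩ := hc.ger_right hA hca
    refine ⟨l', b', h7, h8, ?_⟩
    intro h9 h10
    rw [h9, h10] at h7
    apply hfr
    have h11 : ∀ᶠ z in 𝓝[>] a, c z = (1 : Hm) z := h7.ev_eq (isEnd_right a) Ger.one
    filter_upwards [h11] with z hz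
    exact not_not.2 hz

end Pool.Agent.W2helper35.PP
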