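import Pool.Agent.W2helper35.PP.Main

/-!
# The conclusions
-/

set_option autoImplicit false

namespace Pool.Agent.W2helper35.PP

open Pool.Agent.H23R2.Ch

universe u1 u2 u3 u4

/-- For mutually inverse matrices `u`, `v` over `ℤΓ` there is `γ ∈ Γ` such that all odd cycles over
`ℤΓ` with values in a group whose nonzero elements are divisible by finitely many primes take the
same value on `u` and `γ`. -/
def OddRigid (Γ : Type u1) [Group Γ] : Prop :=
  ∀ (r : Type u2) [Fintype r] [DecidableEq r] (u v : Matrix r r (MonoidAlgebra ℤ Γ)),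
    u * v = 1 → v * u = 1 → ∃ γ : Γ, ∀ (M : Type u3) [AddCommGroup M],
      (∀ x : M, x ≠ 0 → {p : ℕ | p.Prime ∧ ∃ y : M, p • y = x}.Finite) →
    ∀ (Ω : Type u4) [Ring Ω] (𝒜 : ℕ → Submodule ℤ Ω) [GradedAlgebra 𝒜]
      (δ : Ω →ₗ[ℤ] Ω) (T : Ω →ₗ[ℤ] M) (n : ℕ), IsCycle (2 * n + 1) 𝒜 δ T →
    ∀ (φ : MonoidAlgebra ℤ Γ →ₐ[ℤ] Ω), (∀ a, φ a ∈ 𝒜 0) →
      T (v.map φ * (u.map φ).map δ * ((v.map φ).map δ * (u.map φ).map δ) ^ n).trace =
        T (φ (MonoidAlgebra.single γ⁻¹ 1) * δ (φ (MonoidAlgebra.single γ 1)) *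
          (δ (φ (MonoidAlgebra.single γ⁻¹ 1)) * δ (φ (MonoidAlgebra.single γ 1))) ^ n)

/-- For every invertible matrix `A` over `ℤΓ` there are a sign `ε` and `γ ∈ Γ` such that `A` and
`ε γ` have the same determinants in all finite-dimensional representations of `Γ` over all fields,
and the same Dennis trace up to torsion which is divisible by all positive integers. -/
def DetRigid (Γ : Type u1) [Group Γ] : Prop :=
  ∀ (n : ℕ) (A : (Matrix (Fin n) (Fin n) (MonoidAlgebra ℤ Γ))ˣ),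
    ∃ ε : ℤ, (ε = 1 ∨ ε = -1) ∧ ∃ γ : Γ,
      (∀ (L : Type u3) [Field L] (d : ℕ) (σ : Γ →* GL (Fin d) L),
        (Matrix.of fun x y : Fin n × Fin d =>
          (A.val x.1 y.1).coeff.sum fun g a => (a : L) * (σ g).val x.2 y.2).det =
            (ε : L) ^ d * (σ γ).val.det) ∧
      ∃ k : ℕ, 0 < k ∧ ∀ (M : Type u4) [AddCommGroup M] (f : Γ → Γ → M),
        (∀ x y z : Γ, f (x * y) z - f x (y * z) + f (z * x) y = 0) →
        k • ((∑ i, ∑ j, ((A⁻¹).val i j).coeff.sum fun g b =>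
            (A.val j i).coeff.sum fun h a => (b * a) • f g h) - f γ⁻¹ γ) = 0 ∧
        ∀ m : ℕ, 0 < m → ∃ y : M,
          (∑ i, ∑ j, ((A⁻¹).val i j).coeff.sum fun g b =>
            (A.val j i).coeff.sum fun h a => (b * a) • f g h) - f γ⁻¹ γ = m • y

end Pool.Agent.W2helper35.PP
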